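import Mathlib
import Pool.Agent.H6.IntA
import Pool.Agent.H6.IntB

namespace Pool.Agent.Results.MP_6e749b_al.Prufer

open Polynomial TensorProduct Pool.Agent.H6.IntA Pool.Agent.H6.IntB

/-- Pruefer domains: every localization at a maximal ideal is a valuation ring. -/
def IsPrufer (R : Type) [CommRing R] [IsDomain R] : Prop :=
  ∀ (M : Ideal R) [M.IsMaximal], ValuationRing (Localization.AtPrime M)

/-- Ramification indices and residue degrees over `q` are at most `N`. -/
def Bounded (D0 D : Type) [CommRing D0] [CommRing D] [Algebra D0 D] (q : D0) (N : ℕ) : Prop :=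
  ∀ (P : Ideal D) [P.IsPrime], algebraMap D0 D q ∈ P →
    algebraMap D (Localization.AtPrime P) (algebraMap D0 D q) ∉
      IsLocalRing.maximalIdeal (Localization.AtPrime P) ^ (N + 1) ∧
    Ideal.inertiaDeg' (Ideal.span {q}) P ≤ N

/-- `D` is an ADDB-domain with respect to the subring `D0`. -/
def IsADDB (D0 D : Type) [CommRing D0] [CommRing D] [IsDomain D] [Algebra D0 D] : Prop :=
  (∀ (M : Ideal D) [M.IsMaximal], IsDiscreteValuationRing (Localization.AtPrime M)) ∧
  (∀ M : Ideal D, M.IsMaximal → Finite (D ⧸ M)) ∧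
  Function.Injective (algebraMap D0 D) ∧
  (Nonempty (D0 ≃+* ℤ) ∨ ∃ p : ℕ, p.Prime ∧ Nonempty (D0 ≃+* (ZMod p)[X])) ∧
  ∀ q : D0, Prime q → ∃ N : ℕ, Bounded D0 D q N

section
variable {D K A : Type} [CommRing D] [IsDomain D] [Field K] [Algebra D K] [IsFractionRing D K]
  [Ring A] [Algebra D A] [Module.Finite D A]

/-- roots of minimal polynomials -/
def Om (D K A : Type) [CommRing D] [Field K] [Algebra D K] [Ring A] [Algebra D A] :
    Set (AlgebraicClosure K) := {z | ∃ a : A, aeval z (minpoly K ((1 : K) ⊗ₜ[D] a)) = 0}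

theorem F1 [IsIntegrallyClosed D] {f : K[X]} (hf : f ∈ intAA D K A) {z : AlgebraicClosure K}
    (hz : z ∈ Om D K A) : ∃ χ : D[X], χ.Monic ∧ χ.natDegree = Module.finrank K (K ⊗[D] A) ∧
      aeval (aeval z f) χ = 0 := by
  obtain ⟨a, ha⟩ := hz
  obtain ⟨χ, h1, h2, h3⟩ := exists_chi _ (hf _ ⟨a, rfl⟩)
  refine ⟨χ, h1, h2, ?_⟩
  have hd : minpoly K ((1 : K) ⊗ₜ[D] a) ∣ (χ.map (algebraMap D K)).comp f :=
    minpoly.dvd _ _ (by rw [aeval_comp, aeval_map_algebraMap]; exact h3)
  have := aeval_eq_zero_of_dvd_aeval_eq_zero hd ha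
  rwa [aeval_comp, aeval_map_algebraMap] at this

omit [IsDomain D] [IsFractionRing D K] in
theorem F2 {f : K[X]} (h : ∀ z ∈ Om D K A, IsIntegral D (aeval z f)) : f ∈ intAA D K A := by
  classical
  rintro _ ⟨a, rfl⟩
  set a' : K ⊗[D] A := (1 : K) ⊗ₜ[D] a
  rcases subsingleton_or_nontrivial (K ⊗[D] A) with hs | hs
  · exact ⟨1, monic_one, Subsingleton.elim _ _⟩
  have hm : (minpoly K a').Monic := minpoly.monic (Algebra.IsIntegral.isIntegral a')
  set L := AlgebraicClosure K
  have h1 : ∀ z : L, ∃ g : D[X], g.Monic ∧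
      (aeval z (minpoly K a') = 0 → aeval (aeval z f) g = 0) := by
    intro z
    by_cases hz : aeval z (minpoly K a') = 0
    · obtain ⟨g, hg, h0⟩ := h z ⟨a, hz⟩
      exact ⟨g, hg, fun _ => h0⟩
    · exact ⟨1, monic_one, fun h => absurd h hz⟩
  choose g hg hg0 using h1
  set μ := (minpoly K a').map (algebraMap K L)
  let H : D[X] := (μ.roots.map g).prod
  refine ⟨H, monic_multiset_prod_of_monic _ _ fun z _ => hg z, ?_⟩
  have hd : minpoly K a' ∣ (H.map (algebraMap D K)).comp f := by
    rw [← map_dvd_map' (algebraMap K L)]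
    have e1 : μ = (μ.roots.map fun z => X - C z).prod :=
      (IsAlgClosed.splits μ).eq_prod_roots_of_monic (hm.map _)
    have e2 : ((H.map (algebraMap D K)).comp f).map (algebraMap K L) =
        (μ.roots.map fun z => (((g z).map (algebraMap D K)).comp f).map (algebraMap K L)).prod := by
      simp only [H, Polynomial.map_multiset_prod, multiset_prod_comp, Multiset.map_map,
        Function.comp_def]
    show μ ∣ _
    rw [e2]
    conv_lhs => rw [e1]
    refine Multiset.prod_dvd_prod_of_dvd _ _ fun z hz => ?_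
    rw [dvd_iff_isRoot, IsRoot, eval_map_algebraMap, aeval_comp, aeval_map_algebraMap]
    apply hg0
    have := (mem_roots'.mp hz).2
    rwa [IsRoot, eval_map_algebraMap] at this
  have := aeval_eq_zero_of_dvd_aeval_eq_zero hd (minpoly.aeval K a')
  rwa [aeval_comp, aeval_map_algebraMap] at this

theorem F3 {L : Type} [Field L] [Algebra D L] {x : L}
    (h : ∀ W : ValuationSubring L, (∀ d : D, W.valuation (algebraMap D L d) ≤ 1) →
      W.valuation x ≤ 1) : IsIntegral D x := by
  by_contra hx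
  haveI : IsIntegrallyClosedIn (integralClosure D L).toSubring L :=
    inferInstanceAs (IsIntegrallyClosedIn (integralClosure D L) L)
  obtain ⟨V, hV, hxV⟩ := Subring.exists_le_valuationSubring_of_isIntegrallyClosedIn
    (R := (integralClosure D L).toSubring) (x := x) hx
  exact hxV ((V.valuation_le_one_iff x).mp (h V fun d =>
    (V.valuation_le_one_iff _).mpr (hV ((integralClosure D L).algebraMap_mem d))))

theorem F4 {L : Type} [Field L] [Algebra D L] {x : L} (hx : IsIntegral D x)
    (W : ValuationSubring L) (h : ∀ d : D, W.valuation (algebraMap D L d) ≤ 1) :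
    W.valuation x ≤ 1 := by
  let ρ : D →+* W := (algebraMap D L).codRestrict W.toSubring
    (fun d => (W.valuation_le_one_iff _).mp (h d))
  have : IsIntegral W x := hx.map_of_comp_eq ρ (RingHom.id L) rfl
  obtain ⟨y, rfl⟩ := IsIntegrallyClosed.isIntegral_iff.mp this
  exact W.valuation_le_one y

omit [IsDomain D] [IsFractionRing D K] [Module.Finite D A] in
theorem map_mem (g : D[X]) : g.map (algebraMap D K) ∈ intK D K A := by
  rintro _ ⟨a, rfl⟩
  refine ⟨aeval a g, ?_⟩
  rw [aeval_map_algebraMap]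
  exact (aeval_algHom_apply (Algebra.TensorProduct.includeRight : A →ₐ[D] K ⊗[D] A) a g).symm

omit [IsDomain D] [IsFractionRing D K] in
theorem sub_AA {f : K[X]} (hf : f ∈ intK D K A) : f ∈ intAA D K A :=
  mem_of_integral (isIntegral_algebraMap (x := (⟨f, hf⟩ : intK D K A)))

omit [Module.Finite D A] in
theorem clear (f : K[X]) : ∃ d : D, d ≠ 0 ∧ C (algebraMap D K d) * f ∈ intK D K A := by
  obtain ⟨c, hc0, hc⟩ := IsLocalization.integerNormalization_spec (nonZeroDivisors D) f
  refine ⟨c, nonZeroDivisors.ne_zero hc0, ?_⟩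
  rw [← smul_eq_C_mul, algebraMap_smul, ← hc]
  exact map_mem _

theorem AA_sub [IsIntegrallyClosed D] [Module.IsTorsionFree D A]
    (hinj : Function.Injective (algebraMap D A)) [IsIntegrallyClosed (intK D K A)]
    {f : K[X]} (hf : f ∈ intAA D K A) : f ∈ intK D K A := by
  have h1 := integral_of_mem hinj hf
  obtain ⟨d, hd, hdf⟩ := clear (D := D) (A := A) f
  have hc : C (algebraMap D K d) ∈ intK D K A := by simpa using map_mem (K := K) (A := A) (C d)
  have hd' : C (algebraMap D K d) ≠ 0 := by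
    simpa using (map_ne_zero_iff _ (IsFractionRing.injective D K)).mpr hd
  let R := intK D K A
  let ι : R →+* RatFunc K := (algebraMap K[X] (RatFunc K)).comp R.subtype
  have hι : Function.Injective ι :=
    (IsFractionRing.injective K[X] (RatFunc K)).comp Subtype.val_injective
  let j : FractionRing R →ₐ[R] RatFunc K := IsFractionRing.liftAlgHom (g := Algebra.ofId R _) hι
  let x : FractionRing R := algebraMap R _ ⟨_, hdf⟩ / algebraMap R _ ⟨_, hc⟩
  have hx : j x = algebraMap K[X] (RatFunc K) f := by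
    simp only [x, map_div₀, AlgHom.commutes]
    show algebraMap K[X] (RatFunc K) (C (algebraMap D K d) * f) /
      algebraMap K[X] (RatFunc K) (C (algebraMap D K d)) = _
    rw [map_mul, mul_div_cancel_left₀ _
      ((map_ne_zero_iff _ (IsFractionRing.injective K[X] (RatFunc K))).mpr hd')]
  have h2 : IsIntegral R x := by
    rw [← isIntegral_algHom_iff j j.toRingHom.injective, hx]
    exact h1.map (IsScalarTower.toAlgHom R K[X] (RatFunc K))
  obtain ⟨y, hy⟩ := IsIntegrallyClosed.isIntegral_iff.mp h2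
  have : (y : K[X]) = f := by
    apply IsFractionRing.injective K[X] (RatFunc K)
    rw [← hx, ← hy, AlgHom.commutes]; rfl
  exact this ▸ y.2

theorem exists_step [IsIntegrallyClosed D] (hAA : ∀ f ∈ intAA D K A, f ∈ intK D K A)
    (hD : ∀ (M : Ideal D) [M.IsMaximal], IsDiscreteValuationRing (Localization.AtPrime M))
    (hfin : ∀ M : Ideal D, M.IsMaximal → Finite (D ⧸ M)) {q : D} (hq : q ≠ 0) {N Cb : ℕ}
    (hN : ∀ (P : Ideal D) [P.IsPrime], q ∈ P → algebraMap D (Localization.AtPrime P) q ∉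
      IsLocalRing.maximalIdeal (Localization.AtPrime P) ^ (N + 1) ∧ Nat.card (D ⧸ P) ≤ Cb)
    (M : Ideal (intK D K A)) [hM : M.IsPrime] (q' : intK D K A)
    (hq' : (q' : K[X]) = C (algebraMap D K q)) :
    ∃ (E : ℕ) (Φ : intK D K A → Prop), E ≠ 0 ∧ (∀ y, Φ (y ^ E)) ∧
      ∀ a b, Φ a → Φ b → a ∈ M → b ∈ M →
        ∃ s, s ∉ M ∧ ∃ a' b', Φ a' ∧ Φ b' ∧ q' * a' = a * s ∧ q' * b' = b * s := by
  set L := AlgebraicClosure K
  set n := Module.finrank K (K ⊗[D] A)
  have hiL : Function.Injective (algebraMap D L) := by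
    rw [IsScalarTower.algebraMap_eq D K L]
    exact (algebraMap K L).injective.comp (IsFractionRing.injective D K)
  have hqK : algebraMap D K q ≠ 0 := (map_ne_zero_iff _ (IsFractionRing.injective D K)).mpr hq
  have hqL : algebraMap D L q ≠ 0 := (map_ne_zero_iff _ hiL).mpr hq
  let Ψ : K[X] → Prop := fun y => ∀ z ∈ Om D K A, ∀ W : ValuationSubring L,
    (∀ d : D, W.valuation (algebraMap D L d) ≤ 1) → W.valuation (algebraMap D L q) < 1 →
      Ph (W.valuation (algebraMap D L q)) (W.valuation (aeval z y))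
  have hmul : ∀ y y', Ψ y → Ψ y' → Ψ (y * y') := fun y y' h h' z hz W hW hq1 => by
    rw [map_mul, map_mul]; exact (h z hz W hW hq1).mul (h' z hz W hW hq1)
  have hev : ∀ z : L, aeval z (C (algebraMap D K q)⁻¹) = (algebraMap D L q)⁻¹ := fun z => by
    rw [aeval_C, map_inv₀, ← IsScalarTower.algebraMap_apply]
  have hinv : Ψ (C (algebraMap D K q)⁻¹) := fun z hz W hW hq1 => by
    right
    refine ⟨1, 0, ?_⟩
    rw [hev, map_inv₀, pow_one, pow_zero, inv_mul_cancel₀ (by simpa using hqL)]
  have hpow : ∀ y : intK D K A, Ψ ((y : K[X]) ^ (n.factorial * N.factorial)) := by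
    intro y z hz W hW hq1
    obtain ⟨χ, h1, h2, h3⟩ := F1 (sub_AA y.2) hz
    haveI := max_of_prime hD (cen W.valuation hW) hq1 hq
    haveI := hD (cen W.valuation hW)
    have := val_alg W.valuation (val_base W.valuation hW hq hq1 (hN _ hq1).1) hiL h1 h3
    rwa [h2, ← map_pow, ← map_pow] at this
  have hle : ∀ (y : intK D K A), ∀ z ∈ Om D K A, ∀ W : ValuationSubring L,
      (∀ d : D, W.valuation (algebraMap D L d) ≤ 1) → W.valuation (aeval z (y : K[X])) ≤ 1 := by
    intro y z hz W hW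
    obtain ⟨χ, h1, -, h3⟩ := F1 (sub_AA y.2) hz
    exact F4 ⟨χ, h1, h3⟩ W hW
  have hE : n.factorial * N.factorial ≠ 0 :=
    Nat.mul_ne_zero (Nat.factorial_ne_zero _) (Nat.factorial_ne_zero _)
  let ε : intK D K A → intK D K A := fun y =>
    (1 - y ^ (Cb ^ n).factorial) ^ (n.factorial * N.factorial)
  have hεΨ : ∀ y, Ψ (ε y) := fun y => hpow _
  have hεM : ∀ y ∈ M, ε y ∉ M := fun y hy h => by
    have h1 := hM.mem_of_pow_mem _ h
    have h2 := M.pow_mem_of_mem hy _ (Nat.factorial_pos (Cb ^ n))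
    exact hM.ne_top ((Ideal.eq_top_iff_one M).mpr (by simpa using M.add_mem h1 h2))
  have hdiv : ∀ y w : intK D K A, Ψ y →
      C (algebraMap D K q)⁻¹ * ((y * ε y * w : intK D K A) : K[X]) ∈ intK D K A := by
    intro y w hy
    refine hAA _ (F2 fun z hz => F3 fun W hW => ?_)
    have h0 : W.valuation (algebraMap D L q) ≠ 0 := by simpa using hqL
    rw [map_mul, map_mul, hev, map_inv₀, inv_mul_le_iff₀ (zero_lt_iff.mpr h0), mul_one]
    rcases (hW q).eq_or_lt with h1 | h1
    · rw [h1]; exact hle _ z hz W hW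
    refine le_trans ?_ (((hmul _ _ hy (hεΨ y)) z hz W hW h1).le h0 h1.le ?_)
    · rw [Subring.coe_mul, map_mul, map_mul, Subring.coe_mul]
      exact mul_le_of_le_one_right' (hle w z hz W hW)
    rw [map_mul, map_mul]
    rcases (hle y z hz W hW).eq_or_lt with h2 | h2
    · obtain ⟨χ, c1, c2, c3⟩ := F1 (sub_AA y.2) hz
      haveI := hfin _ (max_of_prime hD (cen W.valuation hW) h1 hq)
      have := val_res W.valuation hW (hN _ h1).2 c1 c3 h2
      rw [h2, one_mul]
      simp only [ε, Subring.coe_pow, AddSubgroupClass.coe_sub, Subring.coe_one, map_pow, map_sub,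
        map_one]
      rw [c2] at this
      exact pow_lt_one' this hE
    · exact lt_of_le_of_lt (mul_le_of_le_one_right' (hle _ z hz W hW)) h2
  have hc : C (algebraMap D K q) * C (algebraMap D K q)⁻¹ = 1 := by
    rw [← C_mul, mul_inv_cancel₀ hqK, C_1]
  refine ⟨_, fun y => Ψ y, hE, hpow, fun a b ha hb haM hbM =>
    ⟨ε a * ε b, fun h => (hM.mem_or_mem h).elim (hεM a haM) (hεM b hbM),
      ⟨_, hdiv a (ε b) ha⟩, ⟨_, hdiv b (ε a) hb⟩,
      hmul _ _ hinv (hmul _ _ (hmul _ _ ha (hεΨ a)) (hεΨ b)),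
      hmul _ _ hinv (hmul _ _ (hmul _ _ hb (hεΨ b)) (hεΨ a)), Subtype.ext ?_, Subtype.ext ?_⟩⟩
  · simp only [Subring.coe_mul, hq']
    linear_combination (a * ε a * ε b : K[X]) * hc
  · simp only [Subring.coe_mul, hq']
    linear_combination (b * ε a * ε b : K[X]) * hc
end

theorem base_props {D0 : Type} [CommRing D0]
    (h : Nonempty (D0 ≃+* ℤ) ∨ ∃ p : ℕ, p.Prime ∧ Nonempty (D0 ≃+* (ZMod p)[X])) :
    IsDomain D0 ∧ IsPrincipalIdealRing D0 ∧ Infinite D0 := by
  rcases h with ⟨⟨e⟩⟩ | ⟨p, hp, ⟨e⟩⟩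
  · exact ⟨e.toMulEquiv.isDomain _, IsPrincipalIdealRing.of_surjective e.symm e.symm.surjective,
      Infinite.of_injective _ e.symm.injective⟩
  · haveI := Fact.mk hp
    exact ⟨e.toMulEquiv.isDomain _, IsPrincipalIdealRing.of_surjective e.symm e.symm.surjective,
      Infinite.of_injective _ e.symm.injective⟩

theorem dvd_base {D0 D : Type} [CommRing D0] [CommRing D] [IsDomain D] [Algebra D0 D]
    (hD : IsADDB D0 D) {d : D} (hd : d ≠ 0) : ∃ c : D0, c ≠ 0 ∧ d ∣ algebraMap D0 D c := by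
  obtain ⟨h1, h2, h3, h4, -⟩ := hD
  obtain ⟨_, -, _⟩ := base_props h4
  by_contra hc
  push Not at hc
  obtain ⟨P, hP, hle, hdis⟩ := Ideal.exists_le_prime_disjoint (Ideal.span {d})
    ((nonZeroDivisors D0).map (algebraMap D0 D)) (by
      rw [Set.disjoint_left]
      rintro _ hx ⟨c, hc0, rfl⟩
      exact hc c (nonZeroDivisors.ne_zero hc0) (Ideal.mem_span_singleton.mp hx))
  haveI := h2 P (max_of_prime h1 P (hle (Ideal.mem_span_singleton_self d)) hd)
  have : Function.Injective ((Ideal.Quotient.mk P).comp (algebraMap D0 D)) := by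
    rw [injective_iff_map_eq_zero]
    intro c hc0
    by_contra hne
    exact Set.disjoint_left.mp hdis (Ideal.Quotient.eq_zero_iff_mem.mp hc0)
      ⟨c, mem_nonZeroDivisors_of_ne_zero hne, rfl⟩
  exact not_finite_iff_infinite.mpr ‹_› (Finite.of_injective _ this)

theorem card_bound {D0 D : Type} [CommRing D0] [CommRing D] [IsDomain D] [Algebra D0 D]
    (hD : IsADDB D0 D) {q : D0} (hq : Prime q) {N : ℕ} (P : Ideal D) [hP : P.IsPrime]
    (hqP : algebraMap D0 D q ∈ P) (hN : Ideal.inertiaDeg' (Ideal.span {q}) P ≤ N) :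
    Nat.card (D ⧸ P) ≤ Nat.card (D0 ⧸ Ideal.span {q}) ^ N := by
  obtain ⟨h1, h2, h3, h4, -⟩ := hD
  obtain ⟨_, _, _⟩ := base_props h4
  haveI := h2 P (max_of_prime h1 P hqP ((map_ne_zero_iff _ h3).mpr hq.ne_zero))
  haveI hmax : (Ideal.span {q}).IsMaximal :=
    PrincipalIdealRing.isMaximal_of_irreducible hq.irreducible
  haveI : P.LiesOver (Ideal.span {q}) := ⟨hmax.eq_of_le (Ideal.IsPrime.under D0 P).ne_top
    ((Ideal.span_singleton_le_iff_mem _).mpr hqP)⟩
  rw [Ideal.inertiaDeg'_algebraMap] at hN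
  letI := Ideal.Quotient.field (Ideal.span {q})
  haveI : Finite (D0 ⧸ Ideal.span {q}) :=
    Finite.of_injective _ (algebraMap (D0 ⧸ Ideal.span {q}) (D ⧸ P)).injective
  rw [Module.natCard_eq_pow_finrank (K := D0 ⧸ Ideal.span {q})]
  exact Nat.pow_le_pow_right Nat.card_pos hN

theorem result (D0 D K A : Type) [CommRing D0] [CommRing D] [IsDomain D] [Algebra D0 D] [Field K]
    [Algebra D K] [IsFractionRing D K] [Ring A] [Algebra D A] [Module.IsTorsionFree D A]
    [Module.Finite D A] (hinj : Function.Injective (algebraMap D A)) (hD : IsADDB D0 D)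
    (hic : IsIntegrallyClosed (intK D K A)) : IsPrufer (intK D K A) := by
  classical
  intro M hM
  obtain ⟨_, _, _⟩ := base_props hD.2.2.2.1
  haveI : IsIntegrallyClosed D := IsIntegrallyClosed.of_localization_maximal fun p _ hp => by
    haveI := hD.1 p
    infer_instance
  set S := Localization.AtPrime M
  haveI : IsIntegrallyClosed S :=
    isIntegrallyClosed_of_isLocalization S M.primeCompl M.primeCompl_le_nonZeroDivisors
  have hiK := IsFractionRing.injective D K
  let κ : D →+* intK D K A := (C.comp (algebraMap D K)).codRestrict (intK D K A)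
    (fun d => by simpa using map_mem (K := K) (A := A) (C d))
  have hκ : ∀ d, (κ d : K[X]) = C (algebraMap D K d) := fun d => rfl
  have fin : ∀ (F G a b : intK D K A) (E : ℕ), E ≠ 0 → a * G ^ E = F ^ E * b →
      (a ∉ M ∨ b ∉ M) → algebraMap _ S F ∣ algebraMap _ S G ∨ algebraMap _ S G ∣ algebraMap _ S F := by
    intro F G a b E hE h hab
    have h' := congrArg (algebraMap _ S) h
    simp only [map_mul, map_pow] at h'
    rcases hab with ha | hb
    · left
      rw [← IsIntegrallyClosed.pow_dvd_pow_iff hE,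
        ← (IsLocalization.map_units S (⟨a, ha⟩ : M.primeCompl)).dvd_mul_left]
      exact ⟨_, h'⟩
    · right
      rw [← IsIntegrallyClosed.pow_dvd_pow_iff hE,
        ← (IsLocalization.map_units S (⟨b, hb⟩ : M.primeCompl)).dvd_mul_right]
      exact ⟨_, by rw [← h', mul_comm]⟩
  have cop : ∀ (F G U V : intK D K A) (c : D0), c ≠ 0 → κ (algebraMap D0 D c) = U * F + V * G →
      algebraMap _ S F ∣ algebraMap _ S G ∨ algebraMap _ S G ∣ algebraMap _ S F := by
    intro F G U V c hc h
    by_cases hcM : κ (algebraMap D0 D c) ∈ M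
    swap
    · refine fin F G F G 1 one_ne_zero (by simp) ?_
      by_contra hh
      push Not at hh
      exact hcM (h ▸ M.add_mem (M.mul_mem_left _ hh.1) (M.mul_mem_left _ hh.2))
    let I : Ideal D0 := M.comap (κ.comp (algebraMap D0 D))
    have hI : I ≠ ⊥ := fun h => hc (by simpa [h] using (show c ∈ I from hcM))
    let q : D0 := Submodule.IsPrincipal.generator I
    have hq : Prime q := Submodule.IsPrincipal.prime_generator_of_isPrime I hI
    have hq0 : algebraMap D0 D q ≠ 0 := (map_ne_zero_iff _ hD.2.2.1).mpr hq.ne_zero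
    obtain ⟨N, hN⟩ := hD.2.2.2.2 q hq
    obtain ⟨E, Φ, hE, hΦ, step⟩ := exists_step (fun f hf => AA_sub hinj hf) hD.1 hD.2.1 hq0
      (N := N) (Cb := Nat.card (D0 ⧸ Ideal.span {q}) ^ N)
      (fun P _ hP => ⟨(hN P hP).1, card_bound hD hq P hP (hN P hP).2⟩) M
      (κ (algebraMap D0 D q)) rfl
    obtain ⟨j, c', hc', hcj⟩ := WfDvdMonoid.max_power_factor (pow_ne_zero (E + E - 1) hc)
      hq.irreducible
    have h1 : (U * F + V * G) ^ (E + E - 1) ∈ Ideal.span {F ^ E, G ^ E} :=
      Ideal.add_pow_add_pred_mem_of_pow_mem _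
        (by rw [mul_pow]; exact Ideal.mul_mem_left _ _ (Ideal.subset_span (by simp)))
        (by rw [mul_pow]; exact Ideal.mul_mem_left _ _ (Ideal.subset_span (by simp)))
    obtain ⟨U', V', h2⟩ := Ideal.mem_span_pair.mp h1
    have hq1 : κ (algebraMap D0 D q) ≠ 0 := fun h => by
      have := congrArg Subtype.val h
      rw [hκ] at this
      exact hq0 (hiK (by simpa using this))
    obtain ⟨a, b, h3, h4⟩ := descend M hq1 Φ step j (F ^ E) (G ^ E) (κ (algebraMap D0 D c')) U' V'
      (hΦ F) (hΦ G) (fun h => hc' ((Submodule.IsPrincipal.mem_iff_generator_dvd I).mp h)) (by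
        rw [h2, ← h, ← map_pow, ← map_pow, ← map_pow, ← map_pow, hcj, ← map_mul, ← map_mul,
          mul_comm])
    exact fin F G a b E hE h3 h4
  have tot : ∀ f g : intK D K A,
      algebraMap _ S f ∣ algebraMap _ S g ∨ algebraMap _ S g ∣ algebraMap _ S f := by
    intro f g
    by_cases hf : f = 0
    · right; simp [hf]
    obtain ⟨f1, g1, hf1, hg1, hu⟩ := extract_gcd (f : K[X]) g
    obtain ⟨u, w, huw⟩ := (gcd_isUnit_iff _ _).mp hu
    obtain ⟨d1, h1, e1⟩ := clear (D := D) (A := A) f1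
    obtain ⟨d2, h2, e2⟩ := clear (D := D) (A := A) g1
    obtain ⟨d3, h3, e3⟩ := clear (D := D) (A := A) u
    obtain ⟨d4, h4, e4⟩ := clear (D := D) (A := A) w
    obtain ⟨c, hc, r, hr⟩ := dvd_base hD (mul_ne_zero (mul_ne_zero h1 h2) (mul_ne_zero h3 h4))
    let F : intK D K A := κ d2 * ⟨_, e1⟩
    let G : intK D K A := κ d1 * ⟨_, e2⟩
    have hFG : F * g = G * f := by
      apply Subtype.ext
      simp only [F, G, Subring.coe_mul, hκ]
      conv_lhs => rw [hg1]
      conv_rhs => rw [hf1]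
      ring
    have hF : F ≠ 0 := fun h => by
      have := congrArg Subtype.val h
      simp only [F, Subring.coe_mul, hκ, ZeroMemClass.coe_zero, mul_eq_zero, C_eq_zero,
        map_eq_zero_iff _ hiK, h1, h2, false_or] at this
      exact hf (Subtype.ext (by rw [hf1, this, mul_zero]; rfl))
    have hF' : algebraMap _ S F ≠ 0 := (map_ne_zero_iff _
      (IsLocalization.injective S M.primeCompl_le_nonZeroDivisors)).mpr hF
    have hFG' := congrArg (algebraMap _ S) hFG
    simp only [map_mul] at hFG'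
    rcases cop F G (κ (r * d4) * ⟨_, e3⟩) (κ (r * d3) * ⟨_, e4⟩) c hc (by
      apply Subtype.ext
      simp only [F, G, hr, Subring.coe_mul, Subring.coe_add, hκ, map_mul]
      linear_combination (-C (algebraMap D K d1) * C (algebraMap D K d2) * C (algebraMap D K d3) *
        C (algebraMap D K d4) * C (algebraMap D K r)) * huw) with ⟨t, ht⟩ | ⟨t, ht⟩
    · left
      refine ⟨t, mul_left_cancel₀ hF' ?_⟩
      rw [hFG', ht]; ring
    · right
      have hG' : algebraMap _ S G ≠ 0 := fun h => hF' (by rw [ht, h, zero_mul])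
      refine ⟨t, mul_left_cancel₀ hG' ?_⟩
      rw [← hFG', ht]; ring
  refine ValuationRing.iff_dvd_total.mpr ⟨fun x y => ?_⟩
  obtain ⟨⟨f, s⟩, rfl⟩ := IsLocalization.mk'_surjective M.primeCompl x
  obtain ⟨⟨g, t⟩, rfl⟩ := IsLocalization.mk'_surjective M.primeCompl y
  have a1 : Associated (IsLocalization.mk' S f s) (algebraMap _ S f) :=
    ⟨(IsLocalization.map_units S s).unit, IsLocalization.mk'_spec S f s⟩
  have a2 : Associated (IsLocalization.mk' S g t) (algebraMap _ S g) :=
    ⟨(IsLocalization.map_units S t).unit, IsLocalization.mk'_spec S g t⟩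
  exact (tot f g).imp (fun h => a1.dvd.trans (h.trans a2.symm.dvd))
    (fun h => a2.dvd.trans (h.trans a1.symm.dvd))

end Pool.Agent.Results.MP_6e749b_al.Prufer
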